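import Pool.Agent.Work.MP_e9e200_al.O3.Lower
import Pool.Agent.Work.MP_e9e200_al.TL.Final
import Pool.Agent.Work.MP_e9e200_al.UP.Main

/-!
# Bieri's conjecture on the invariants `Σ^m` of metabelian groups

For every `m ≥ 1` and every metabelian group `G` of type `FP_m`

  `Σ^m(G)^c = Σ^m(G, ℤ)^c = conv_{≤m} (Σ^1(G, ℤ)^c)`,

where `Σ^m(G)` is the homotopical invariant, defined with CW complexes and continuous height
functions.
-/

set_option autoImplicit false

namespace Pool.Agent.Results.MP_e9e200_al.SigmaConjecture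

open Pool.Agent.Work.MP_e9e200_al

/-- Let `m ≥ 1` and let `G` be a finitely generated metabelian group of type `FP_m`.  Then the
complement of the homotopical invariant `Σ^m(G)`, the complement of the homological invariant
`Σ^m(G, ℤ)` and the set `conv_{≤m} (Σ^1(G, ℤ)^c)` coincide. -/
theorem result (m : ℕ) (hm : 1 ≤ m) (G : Type) [Group G] [Group.FG G] (hmet : Metab G)
    (hfp : GroupFP G m) :
    O3.LSigC G m = SigC G m ∧ SigC G m = ConvLE G m (SigC G 1) := by
  have h := UP.sigma_eq m hm G hmet hfp
  refine ⟨?_, h⟩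
  rw [h]
  refine Set.Subset.antisymm ?_ (TL.A_LOW m G hm hmet hfp)
  rintro v ⟨hv, hv'⟩
  by_contra hc
  exact hv' (O3.lower m hm G hmet hfp v hv hc)

end Pool.Agent.Results.MP_e9e200_al.SigmaConjecture
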